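import Pool.Agent.BSH.Stmts

/-!
# Squad BSH, row MAP (helper80)
-/

set_option autoImplicit false

namespace Pool.Agent.BSH.H80

theorem sp_le {E A : Type} [Field E] [CommRing A] [Algebra E A] (B : Set A) (l l' : List A) :
    sp E B l' ≤ sp E B (l ++ l') := by
  refine Submodule.span_mono ?_
  rintro x ((hx | hx) | hx)
  · exact Or.inl (Or.inl hx)
  · exact Or.inl (Or.inr hx)
  · exact Or.inr (List.mem_append_right l hx)

theorem map_sp {E A A' : Type} [Field E] [CommRing A] [Algebra E A] [CommRing A'] [Algebra E A']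
    (φ : A →ₐ[E] A') (B : Set A) (B' : Set A') (l : List A) (l' : List A')
    (hB : ∀ x ∈ B, φ x ∈ sp E B' l') (F : A) (hF : F ∈ sp E B l) :
    φ F ∈ sp E B' (l.map φ ++ l') := by
  refine Submodule.span_induction (p := fun x _ => φ x ∈ sp E B' (l.map φ ++ l')) ?_ ?_ ?_ ?_ hF
  · rintro x ((hx | hx) | hx)
    · have h1 : x = 1 := hx
      rw [h1, map_one]
      exact Submodule.subset_span (Or.inl (Or.inl rfl))
    · exact sp_le B' (l.map φ) l' (hB x hx)
    · exact Submodule.subset_span (Or.inr (List.mem_append_left l' (List.mem_map_of_mem hx)))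
  · rw [map_zero]
    exact Submodule.zero_mem _
  · intro x y _ _ hx hy
    rw [map_add]
    exact Submodule.add_mem _ hx hy
  · intro c x _ hx
    rw [map_smul]
    exact Submodule.smul_mem _ c hx

/-- Row MAP. -/
theorem map : MapStmt := by
  intro E A A' _ _ _ _ _ φ B B' l l' hl hl' hB
  refine ⟨?_, map_sp φ B B' l l' hB⟩
  induction l with
  | nil => exact hl'
  | cons g l ih =>
    obtain ⟨h1, a, ha, b, hb, hg⟩ := hl
    refine ⟨ih h1, φ a, map_sp φ B B' l l' hB a ha, φ b, map_sp φ B B' l l' hB b hb, ?_⟩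
    rw [hg, map_mul]

end Pool.Agent.BSH.H80
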